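import Mathlib
import Pool.Agent.W2helper23.Mems.Main

/-!
# Finite-time singularity for the MEMS free boundary model with bending

For all `β > 0`, `τ ≥ 0`, `ε > 0` there is a voltage `ls` such that for every `lam > ls` and every
`γ ≥ 0` the lifespan of the solution of the evolution problem (clamped plate with inertia and
damping, coupled to the elliptic free boundary problem for the potential) is bounded by a number
`T0` which depends only on the parameters.  So the answer to Q1 is positive.

Idea of the proof.  Testing the divergence theorem in the free domain with a vector field built from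
the stress tensor of the potential (a Pohozaev or Noether type identity with a multiplier which
depends on the potential itself) yields a lower bound
`∫ g G(E) ≥ ε ∫ q² ((E-1)^+)²` for the electrostatic force `g`, with bounded multiplier `G(E)`,
`q = exp (-2 ε (1 + u))` and `E = cos (2 x) q / δ`.  So a weighted integral of the force is bounded
below as long as a weighted mean of `u` is not large; a differential inequality for that mean, with
the weight `(1-x²)² + M (1-x²)⁴`, shows that it would drop below its trivial lower bound in finite
time.
-/

set_option autoImplicit false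

namespace Pool.Agent.Results.MP_cdeac6_an.FiniteTimeSingularity

open Pool.Agent.W2helper23.Mems

theorem result : ∀ β τ ε : ℝ, 0 < β → 0 ≤ τ → 0 < ε →
    ∃ ls : ℝ, ∀ lam : ℝ, ls < lam → ∀ γ : ℝ, 0 ≤ γ → ∃ T0 : ℝ,
      ∀ (T : ℝ) (u : ℝ → ℝ → ℝ) (ψ ψx ψz : ℝ → ℝ × ℝ → ℝ),
        IsSolution β τ γ ε lam T u ψ ψx ψz → T ≤ T0 := by
  intro β τ ε hβ hτ hε
  obtain ⟨ls, hls⟩ := finite_time hβ hτ hε
  exact ⟨ls, fun lam hlam γ _ => hls lam hlam γ⟩

end Pool.Agent.Results.MP_cdeac6_an.FiniteTimeSingularity
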